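import Pool.Agent.Work.MP_4c4335_nt_helper79.PO
import Pool.Agent.Work.MP_4c4335_nt_helper98.Interface

namespace Pool.Agent.Work.MP_4c4335_nt_helper79

theorem stmt_PO : Pool.Agent.Work.MP_4c4335_nt_helper98.Stmt_PO := PO

end Pool.Agent.Work.MP_4c4335_nt_helper79
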