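import Mathlib

/-!
# Mean porosity (block PO of MP_4c4335_nt)
-/

namespace Pool.Agent.Work.MP_4c4335_nt_helper79

open Finset Real MeasureTheory

/-- dyadic cell of generation `i` of the point `x` -/
noncomputable def cell (i : ℕ) (x : ℝ) : ℤ := ⌊(2 : ℝ) ^ i * x⌋

/-- generation `i` is porous at `x` -/
def Por (A : Set ℝ) (b i : ℕ) (x : ℝ) : Prop :=
  ∃ q : ℤ, q / 2 ^ b = cell i x ∧ ∀ y ∈ A, cell (i + b) y ≠ q

theorem ediv_two_pow (b : ℕ) (q n : ℤ) : q / 2 ^ b = n ↔ n * 2 ^ b ≤ q ∧ q < (n + 1) * 2 ^ b := by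
  have hb : (0 : ℤ) < 2 ^ b := by positivity
  constructor
  · rintro rfl
    constructor
    · exact Int.ediv_mul_le q hb.ne'
    · exact Int.lt_ediv_add_one_mul_self q hb
  · rintro ⟨h1, h2⟩
    apply le_antisymm
    · exact Int.lt_add_one_iff.1 ((Int.ediv_lt_iff_lt_mul hb).2 h2)
    · exact (Int.le_ediv_iff_mul_le hb).2 h1

theorem cell_ediv (i b : ℕ) (y : ℝ) : cell (i + b) y / 2 ^ b = cell i y := by
  rw [ediv_two_pow]
  have h1 := Int.floor_le ((2 : ℝ) ^ i * y)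
  have h2 := Int.lt_floor_add_one ((2 : ℝ) ^ i * y)
  have hb : (0 : ℝ) < 2 ^ b := by positivity
  constructor
  · rw [cell, cell, Int.le_floor]
    push_cast
    rw [pow_add]
    nlinarith
  · rw [cell, cell, Int.floor_lt]
    push_cast
    rw [pow_add]
    nlinarith

theorem Por.congr {A : Set ℝ} {b i : ℕ} {x y : ℝ} (h : Por A b i x) (hxy : cell i x = cell i y) :
    Por A b i y := by
  obtain ⟨q, h1, h2⟩ := h
  exact ⟨q, h1.trans hxy, h2⟩

theorem Por.mono {A A' : Set ℝ} {b i : ℕ} {x : ℝ} (h : Por A b i x) (hA : A' ⊆ A) :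
    Por A' b i x := by
  obtain ⟨q, h1, h2⟩ := h
  exact ⟨q, h1, fun y hy => h2 y (hA hy)⟩

theorem volume_cell (i : ℕ) (n : ℤ) :
    volume {x : ℝ | cell i x = n} = ENNReal.ofReal ((1 / 2 : ℝ) ^ i) := by
  have h : {x : ℝ | cell i x = n} = Set.Ico ((n : ℝ) / 2 ^ i) (((n : ℝ) + 1) / 2 ^ i) := by
    ext x
    have hp : (0 : ℝ) < 2 ^ i := by positivity
    rw [Set.mem_ofPred_eq, cell, Int.floor_eq_iff, Set.mem_Ico, div_le_iff₀ hp, lt_div_iff₀ hp,
      mul_comm x]
  rw [h, Real.volume_Ico, one_div_pow, ← sub_div]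
  congr 2
  ring

/-- the main covering bound -/
theorem vol_bound (A : Set ℝ) (b : ℕ) (hb : 1 ≤ b) (lam : ℝ) (h0 : 0 < lam) (h1 : lam ≤ 1)
    (h2 : 1 - (1 / 2 : ℝ) ^ b ≤ lam ^ b) :
    ∀ (m i a : ℕ) (n : ℤ), (∀ x ∈ A, cell i x = n → ∃ T : Finset ℕ, a ≤ T.card ∧
      ∀ j ∈ T, i ≤ j ∧ j < i + m ∧ Por A b j x) →
      volume (A ∩ {x | cell i x = n}) ≤ ENNReal.ofReal ((1 / 2 : ℝ) ^ i * lam ^ a) := by
  intro m
  induction m using Nat.strong_induction_on with
  | _ m ih =>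
  intro i a n hT
  rcases Set.eq_empty_or_nonempty (A ∩ {x | cell i x = n}) with he | ⟨x0, hx0, hx0n⟩
  · rw [he]; simp
  rcases Nat.eq_zero_or_pos m with rfl | hm
  · have ha : a = 0 := by
      obtain ⟨T, hTa, hT'⟩ := hT x0 hx0 hx0n
      have : T = ∅ := by
        rw [Finset.eq_empty_iff_forall_notMem]
        intro j hj
        have := hT' j hj
        omega
      rw [this] at hTa
      simpa using hTa
    subst ha
    rw [pow_zero, mul_one, ← volume_cell i n]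
    exact measure_mono Set.inter_subset_right
  by_cases hp : Por A b i x0
  · -- porous generation
    obtain ⟨q, hq1, hq2⟩ := hp
    have hx0n' : cell i x0 = n := hx0n
    rw [hx0n', ediv_two_pow] at hq1
    set I : Finset ℤ := (Finset.Ico (n * 2 ^ b) ((n + 1) * 2 ^ b)).erase q with hI
    have hcard : I.card = 2 ^ b - 1 := by
      rw [hI, card_erase_of_mem (mem_Ico.2 hq1), Int.card_Ico]
      have : (n + 1) * 2 ^ b - n * 2 ^ b = ((2 ^ b : ℕ) : ℤ) := by push_cast; ring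
      rw [this, Int.toNat_natCast]
    have hsub : A ∩ {x | cell i x = n} ⊆ ⋃ p ∈ I, (A ∩ {x | cell (i + b) x = p}) := by
      rintro x ⟨hx, hxn⟩
      have hxn' : cell i x = n := hxn
      simp only [Set.mem_iUnion]
      refine ⟨cell (i + b) x, ?_, hx, rfl⟩
      rw [hI, mem_erase, mem_Ico]
      refine ⟨hq2 x hx, ?_⟩
      rw [← ediv_two_pow, cell_ediv, hxn']
    have hstep : ∀ p ∈ I, volume (A ∩ {x | cell (i + b) x = p}) ≤
        ENNReal.ofReal ((1 / 2 : ℝ) ^ (i + b) * lam ^ (a - b)) := by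
      intro p hp
      refine ih (m - b) (by omega) (i + b) (a - b) p ?_
      intro x hx hxp
      have hxn : cell i x = n := by
        rw [← cell_ediv i b x, hxp, ediv_two_pow]
        exact mem_Ico.1 (mem_of_mem_erase hp)
      obtain ⟨T, hTa, hT'⟩ := hT x hx hxn
      refine ⟨T.filter (fun j => i + b ≤ j), ?_, ?_⟩
      · have h3 : (T.filter (fun j => ¬ i + b ≤ j)).card ≤ b := by
          have : T.filter (fun j => ¬ i + b ≤ j) ⊆ Finset.Ico i (i + b) := by
            intro j hj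
            rw [mem_filter] at hj
            rw [mem_Ico]
            have := hT' j hj.1
            omega
          refine (card_le_card this).trans ?_
          simp
        have h4 := card_filter_add_card_filter_not (s := T) (fun j => i + b ≤ j)
        omega
      · intro j hj
        rw [mem_filter] at hj
        obtain ⟨h5, h6, h7⟩ := hT' j hj.1
        exact ⟨hj.2, by omega, h7⟩
    calc volume (A ∩ {x | cell i x = n})
        ≤ volume (⋃ p ∈ I, (A ∩ {x | cell (i + b) x = p})) := measure_mono hsub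
      _ ≤ ∑ p ∈ I, volume (A ∩ {x | cell (i + b) x = p}) := measure_biUnion_finset_le _ _
      _ ≤ ∑ _p ∈ I, ENNReal.ofReal ((1 / 2 : ℝ) ^ (i + b) * lam ^ (a - b)) := sum_le_sum hstep
      _ = ENNReal.ofReal (((2 ^ b - 1 : ℕ) : ℝ) * ((1 / 2 : ℝ) ^ (i + b) * lam ^ (a - b))) := by
          rw [sum_const, hcard, nsmul_eq_mul, ← ENNReal.ofReal_natCast,
            ← ENNReal.ofReal_mul (by positivity)]
      _ ≤ ENNReal.ofReal ((1 / 2 : ℝ) ^ i * lam ^ a) := by
          apply ENNReal.ofReal_le_ofReal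
          have h3 : ((2 ^ b - 1 : ℕ) : ℝ) * (1 / 2 : ℝ) ^ (i + b) =
              (1 / 2 : ℝ) ^ i * (1 - (1 / 2 : ℝ) ^ b) := by
            rw [Nat.cast_sub Nat.one_le_two_pow]
            push_cast
            rw [pow_add]
            have h4 : (2 : ℝ) ^ b * (1 / 2) ^ b = 1 := by
              rw [← mul_pow]; norm_num
            linear_combination ((1 / 2 : ℝ) ^ i) * h4
          rw [← mul_assoc, h3, mul_assoc]
          apply mul_le_mul_of_nonneg_left _ (by positivity)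
          calc (1 - (1 / 2 : ℝ) ^ b) * lam ^ (a - b) ≤ lam ^ b * lam ^ (a - b) :=
                mul_le_mul_of_nonneg_right h2 (by positivity)
            _ = lam ^ (b + (a - b)) := (pow_add _ _ _).symm
            _ ≤ lam ^ a := pow_le_pow_of_le_one h0.le h1 (by omega)
  · -- non porous generation
    have hsub : A ∩ {x | cell i x = n} ⊆
        ⋃ p ∈ Finset.Ico (n * 2 ^ 1) ((n + 1) * 2 ^ 1), (A ∩ {x | cell (i + 1) x = p}) := by
      rintro x ⟨hx, hxn⟩
      have hxn' : cell i x = n := hxn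
      simp only [Set.mem_iUnion]
      refine ⟨cell (i + 1) x, ?_, hx, rfl⟩
      rw [mem_Ico, ← ediv_two_pow, cell_ediv, hxn']
    have hstep : ∀ p ∈ Finset.Ico (n * 2 ^ 1) ((n + 1) * 2 ^ 1),
        volume (A ∩ {x | cell (i + 1) x = p}) ≤
        ENNReal.ofReal ((1 / 2 : ℝ) ^ (i + 1) * lam ^ a) := by
      intro p hp'
      refine ih (m - 1) (by omega) (i + 1) a p ?_
      intro x hx hxp
      have hxn : cell i x = n := by
        rw [← cell_ediv i 1 x, hxp, ediv_two_pow]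
        exact mem_Ico.1 hp'
      obtain ⟨T, hTa, hT'⟩ := hT x hx hxn
      refine ⟨T, hTa, ?_⟩
      intro j hj
      obtain ⟨h5, h6, h7⟩ := hT' j hj
      have hji : j ≠ i := by
        rintro rfl
        exact hp (h7.congr (hxn.trans hx0n.symm))
      exact ⟨by omega, by omega, h7⟩
    calc volume (A ∩ {x | cell i x = n})
        ≤ volume (⋃ p ∈ Finset.Ico (n * 2 ^ 1) ((n + 1) * 2 ^ 1),
            (A ∩ {x | cell (i + 1) x = p})) := measure_mono hsub
      _ ≤ ∑ p ∈ Finset.Ico (n * 2 ^ 1) ((n + 1) * 2 ^ 1), volume (A ∩ {x | cell (i + 1) x = p}) :=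
          measure_biUnion_finset_le _ _
      _ ≤ ∑ _p ∈ Finset.Ico (n * 2 ^ 1) ((n + 1) * 2 ^ 1),
            ENNReal.ofReal ((1 / 2 : ℝ) ^ (i + 1) * lam ^ a) := sum_le_sum hstep
      _ = ENNReal.ofReal (((2 : ℕ) : ℝ) * ((1 / 2 : ℝ) ^ (i + 1) * lam ^ a)) := by
          have : (n + 1) * 2 ^ 1 - n * 2 ^ 1 = ((2 : ℕ) : ℤ) := by push_cast; ring
          rw [sum_const, Int.card_Ico, this, Int.toNat_natCast, nsmul_eq_mul,
            ← ENNReal.ofReal_natCast, ← ENNReal.ofReal_mul (by positivity)]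
      _ = ENNReal.ofReal ((1 / 2 : ℝ) ^ i * lam ^ a) := by
          congr 1
          push_cast
          ring

/-- A hole inside the cell gives a porous generation. -/
theorem por_of_hole {A : Set ℝ} {i b : ℕ} {x α β ρ : ℝ} (hρ : ρ = (1 / 2 : ℝ) ^ i / 8)
    (hα : x - ρ ≤ α) (hβ : β ≤ x + ρ) (hab : 2 * (1 / 2 : ℝ) ^ (i + b) ≤ β - α)
    (hA : ∀ y : ℝ, α < y → y < β → y ∉ A)
    (hc1 : (cell i x : ℝ) ≤ 2 ^ i * (x - ρ)) (hc2 : 2 ^ i * (x + ρ) ≤ (cell i x : ℝ) + 1) :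
    Por A b i x := by
  have hp : (0 : ℝ) < 2 ^ (i + b) := by positivity
  have hpi : (0 : ℝ) < 2 ^ i := by positivity
  have hpb : (0 : ℝ) < 2 ^ b := by positivity
  set q : ℤ := ⌊(2 : ℝ) ^ (i + b) * α⌋ + 1 with hq
  have h1 := Int.floor_le ((2 : ℝ) ^ (i + b) * α)
  have h2 := Int.lt_floor_add_one ((2 : ℝ) ^ (i + b) * α)
  have h3 : (2 : ℝ) ^ (i + b) * α < q := by rw [hq]; push_cast; exact h2
  have h4 : (q : ℝ) + 1 ≤ (2 : ℝ) ^ (i + b) * β := by
    rw [hq]; push_cast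
    have h5 : (2 : ℝ) ^ (i + b) * (2 * (1 / 2 : ℝ) ^ (i + b)) = 2 := by
      have : (2 : ℝ) ^ (i + b) * (1 / 2 : ℝ) ^ (i + b) = 1 := by rw [← mul_pow]; norm_num
      linear_combination 2 * this
    have h6 := mul_le_mul_of_nonneg_left hab hp.le
    rw [h5] at h6
    nlinarith
  refine ⟨q, ?_, ?_⟩
  · rw [ediv_two_pow]
    constructor
    · have h7 : ((cell i x * 2 ^ b : ℤ) : ℝ) < q := by
        push_cast
        refine lt_of_le_of_lt ?_ h3
        have h8 : (2 : ℝ) ^ i * (x - ρ) ≤ 2 ^ i * α := mul_le_mul_of_nonneg_left hα hpi.le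
        rw [pow_add]
        nlinarith
      exact_mod_cast h7.le
    · have h7 : (q : ℝ) < (((cell i x + 1) * 2 ^ b : ℤ) : ℝ) := by
        push_cast
        refine lt_of_lt_of_le (lt_add_one _) (h4.trans ?_)
        have h8 : (2 : ℝ) ^ i * β ≤ 2 ^ i * (x + ρ) := mul_le_mul_of_nonneg_left hβ hpi.le
        rw [pow_add]
        nlinarith
      exact_mod_cast h7
  · intro y hy hyq
    rw [cell, Int.floor_eq_iff] at hyq
    refine hA y ?_ ?_ hy
    · have := h3.trans_le hyq.1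
      exact lt_of_mul_lt_mul_left this hp.le
    · have := hyq.2.trans_le h4
      exact lt_of_mul_lt_mul_left this hp.le

/-- one third trick -/
theorem third {i : ℕ} {x ρ : ℝ} (hρ : ρ = (1 / 2 : ℝ) ^ i / 8) :
    ((cell i x : ℝ) ≤ 2 ^ i * (x - ρ) ∧ 2 ^ i * (x + ρ) ≤ (cell i x : ℝ) + 1) ∨
    ((cell i (x + 1 / 3) : ℝ) ≤ 2 ^ i * (x + 1 / 3 - ρ) ∧
      2 ^ i * (x + 1 / 3 + ρ) ≤ (cell i (x + 1 / 3) : ℝ) + 1) := by
  have hpi : (0 : ℝ) < 2 ^ i := by positivity
  have hρ' : (2 : ℝ) ^ i * ρ = 1 / 8 := by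
    have : (2 : ℝ) ^ i * (1 / 2 : ℝ) ^ i = 1 := by rw [← mul_pow]; norm_num
    rw [hρ]; linear_combination this / 8
  have h1 := Int.floor_le ((2 : ℝ) ^ i * x)
  have h2 := Int.lt_floor_add_one ((2 : ℝ) ^ i * x)
  have h3 := Int.floor_le ((2 : ℝ) ^ i * (x + 1 / 3))
  have h4 := Int.lt_floor_add_one ((2 : ℝ) ^ i * (x + 1 / 3))
  by_contra hcon
  rw [not_or, not_and_or, not_and_or, not_le, not_le, not_le, not_le] at hcon
  obtain ⟨hA, hB⟩ := hcon
  -- a boundary of the standard grid near `x`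
  have key1 : ∃ n : ℤ, |(2 : ℝ) ^ i * x - n| ≤ 1 / 8 := by
    rcases hA with hA | hA
    · refine ⟨cell i x, ?_⟩
      rw [cell] at hA ⊢
      rw [abs_le]
      constructor <;> linarith
    · refine ⟨cell i x + 1, ?_⟩
      rw [cell] at hA ⊢
      push_cast
      rw [abs_le]
      constructor <;> linarith
  have key2 : ∃ n : ℤ, |(2 : ℝ) ^ i * (x + 1 / 3) - n| ≤ 1 / 8 := by
    rcases hB with hB | hB
    · refine ⟨cell i (x + 1 / 3), ?_⟩
      rw [cell] at hB ⊢
      rw [abs_le]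
      constructor <;> linarith
    · refine ⟨cell i (x + 1 / 3) + 1, ?_⟩
      rw [cell] at hB ⊢
      push_cast
      rw [abs_le]
      constructor <;> linarith
  obtain ⟨n, hn⟩ := key1
  obtain ⟨n', hn'⟩ := key2
  rw [abs_le] at hn hn'
  -- `2 ^ i / 3` is at distance at least `1 / 3` from the integers
  have h5 : (2 : ℤ) ^ i ≠ 3 * (n' - n) := by
    intro h
    have h6 : (3 : ℤ) ∣ 2 ^ i := ⟨_, h⟩
    have h7 : Prime (3 : ℤ) := Int.prime_three
    have h8 := h7.dvd_of_dvd_pow h6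
    norm_num at h8
  have h6 : (2 : ℤ) ^ i + 1 ≤ 3 * (n' - n) ∨ 3 * (n' - n) + 1 ≤ 2 ^ i := by
    rcases lt_or_gt_of_ne h5 with h | h
    · left; exact h
    · right; exact h
  rcases h6 with h6 | h6
  · have h7 : (2 : ℝ) ^ i + 1 ≤ 3 * ((n' : ℝ) - n) := by exact_mod_cast h6
    linarith [hn.1, hn.2, hn'.1, hn'.2]
  · have h7 : 3 * ((n' : ℝ) - n) + 1 ≤ (2 : ℝ) ^ i := by exact_mod_cast h6
    linarith [hn.1, hn.2, hn'.1, hn'.2]

theorem vol_unit {A : Set ℝ} (hA : A ⊆ Set.Ico 0 8) (b : ℕ) (hb : 1 ≤ b) (lam : ℝ) (h0 : 0 < lam)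
    (h1 : lam ≤ 1) (h2 : 1 - (1 / 2 : ℝ) ^ b ≤ lam ^ b) (a M : ℕ)
    (hT : ∀ x ∈ A, ∃ T : Finset ℕ, a ≤ T.card ∧ ∀ j ∈ T, j < M ∧ Por A b j x) :
    volume A ≤ ENNReal.ofReal (8 * lam ^ a) := by
  have hsub : A ⊆ ⋃ p ∈ Finset.Ico (0 : ℤ) 8, (A ∩ {x | cell 0 x = p}) := by
    intro x hx
    simp only [Set.mem_iUnion]
    refine ⟨cell 0 x, ?_, hx, rfl⟩
    have h3 := hA hx
    rw [Set.mem_Ico] at h3
    rw [mem_Ico, cell, pow_zero, one_mul]
    constructor
    · exact Int.floor_nonneg.2 h3.1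
    · rw [Int.floor_lt]; exact_mod_cast h3.2
  calc volume A ≤ volume (⋃ p ∈ Finset.Ico (0 : ℤ) 8, (A ∩ {x | cell 0 x = p})) :=
        measure_mono hsub
    _ ≤ ∑ p ∈ Finset.Ico (0 : ℤ) 8, volume (A ∩ {x | cell 0 x = p}) :=
        measure_biUnion_finset_le _ _
    _ ≤ ∑ _p ∈ Finset.Ico (0 : ℤ) 8, ENNReal.ofReal ((1 / 2 : ℝ) ^ 0 * lam ^ a) := by
        refine sum_le_sum fun p _ => vol_bound A b hb lam h0 h1 h2 M 0 a p ?_
        intro x hx _
        obtain ⟨T, hTa, hT'⟩ := hT x hx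
        refine ⟨T, hTa, fun j hj => ⟨Nat.zero_le _, ?_, (hT' j hj).2⟩⟩
        have := (hT' j hj).1
        omega
    _ = ENNReal.ofReal (8 * lam ^ a) := by
        rw [sum_const, Int.card_Ico, nsmul_eq_mul, pow_zero, one_mul,
          show (8 - 0 : ℤ).toNat = 8 from rfl, ← ENNReal.ofReal_natCast,
          ← ENNReal.ofReal_mul (by positivity)]
        norm_num

/-- **Mean porosity** -/
theorem PO : ∀ (S : Set ℝ) (r J b a : ℕ), S ⊆ Set.Icc 0 7 → 3 ≤ r →
  (∀ θ ∈ S, ∃ T : Finset ℕ, a ≤ T.card ∧ (∀ j ∈ T, j < J) ∧ ∀ j ∈ T, ∃ α β : ℝ,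
    θ - (1 / 2 : ℝ) ^ (r + j) ≤ α ∧ β ≤ θ + (1 / 2 : ℝ) ^ (r + j) ∧
      (1 / 2 : ℝ) ^ (r + j + b) ≤ β - α ∧ ∀ x : ℝ, α < x → x < β → x ∉ S) →
  volume S ≤ ENNReal.ofReal (32 * Real.exp (-((a : ℝ) / (((b : ℝ) + 8) * 2 ^ (b + 8))))) := by
  intro S r J b a hS hr hT
  classical
  set c : ℕ := b + 4 with hc
  set lam : ℝ := Real.exp (-(1 / ((c : ℝ) * 2 ^ c))) with hlam
  have hc0 : (0 : ℝ) < c := by rw [hc]; positivity
  have h0 : 0 < lam := Real.exp_pos _
  have h1 : lam ≤ 1 := by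
    rw [hlam, Real.exp_le_one_iff, neg_nonpos]; positivity
  have h2 : 1 - (1 / 2 : ℝ) ^ c ≤ lam ^ c := by
    have h3 : lam ^ c = Real.exp (-((1 / 2 : ℝ) ^ c)) := by
      rw [hlam, ← Real.exp_nat_mul]
      congr 1
      rw [one_div_pow]
      field_simp
    rw [h3]
    have := Real.add_one_le_exp (-((1 / 2 : ℝ) ^ c))
    linarith
  set a0 : ℕ := (a + 1) / 2 with ha0
  set S0 : Set ℝ := {x ∈ S | ∃ T : Finset ℕ, a0 ≤ T.card ∧ ∀ j ∈ T, j < r + J ∧ Por S c j x} with hS0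
  set S' : Set ℝ := (fun x => x + 1 / 3) '' S with hS'
  set S1 : Set ℝ := {x ∈ S' | ∃ T : Finset ℕ, a0 ≤ T.card ∧ ∀ j ∈ T, j < r + J ∧ Por S' c j x}
    with hS1
  have hcov : S ⊆ S0 ∪ (fun x => x + 1 / 3) ⁻¹' S1 := by
    intro x hx
    obtain ⟨T, hTa, hTJ, hTh⟩ := hT x hx
    set T0 := T.filter (fun j => Por S c (r + j - 3) x) with hT0
    set T1 := T.filter (fun j => ¬ Por S c (r + j - 3) x) with hT1
    have hinj : Set.InjOn (fun j : ℕ => r + j - 3) (Set.univ : Set ℕ) := by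
      intro u _ v _ huv
      simp only at huv
      omega
    have hsum : T0.card + T1.card = T.card := card_filter_add_card_filter_not _
    by_cases h3 : a0 ≤ T0.card
    · left
      refine ⟨hx, T0.image (fun j => r + j - 3), ?_, ?_⟩
      · rw [card_image_of_injOn (hinj.mono (Set.subset_univ _))]
        exact h3
      · intro j hj
        obtain ⟨u, hu, rfl⟩ := mem_image.1 hj
        obtain ⟨hu1, hu2⟩ := mem_filter.1 hu
        have := hTJ u hu1
        exact ⟨by omega, hu2⟩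
    · right
      have h4 : a0 ≤ T1.card := by omega
      refine ⟨⟨x, hx, rfl⟩, T1.image (fun j => r + j - 3), ?_, ?_⟩
      · rw [card_image_of_injOn (hinj.mono (Set.subset_univ _))]
        exact h4
      · intro j hj
        obtain ⟨u, hu, rfl⟩ := mem_image.1 hj
        obtain ⟨hu1, hu2⟩ := mem_filter.1 hu
        have hJu := hTJ u hu1
        refine ⟨by omega, ?_⟩
        obtain ⟨α, β, hα, hβ, hab, hh⟩ := hTh u hu1
        have hru : r + u = (r + u - 3) + 3 := by omega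
        have hρ : (1 / 2 : ℝ) ^ (r + u) = (1 / 2 : ℝ) ^ (r + u - 3) / 8 := by
          rw [hru, pow_add]; norm_num
          ring
        have hlen : 2 * (1 / 2 : ℝ) ^ (r + u - 3 + c) = (1 / 2 : ℝ) ^ (r + u + b) := by
          have : r + u - 3 + c = (r + u + b) + 1 := by omega
          rw [this, pow_succ]; ring
        rcases third (i := r + u - 3) (x := x) hρ with ⟨h5, h6⟩ | ⟨h5, h6⟩
        · exact absurd (por_of_hole hρ hα hβ (by rw [hlen]; exact hab) hh h5 h6) hu2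
        · refine por_of_hole (α := α + 1 / 3) (β := β + 1 / 3) hρ (by linarith) (by linarith)
            (by rw [hlen]; linarith) ?_ h5 h6
          rintro y hy1 hy2 ⟨z, hz, rfl⟩
          exact hh z (by linarith) (by linarith) hz
  have hv0 : volume S0 ≤ ENNReal.ofReal (8 * lam ^ a0) := by
    refine vol_unit ?_ c (by omega) lam h0 h1 h2 a0 (r + J) ?_
    · intro x hx
      have := hS hx.1
      rw [Set.mem_Icc] at this
      rw [Set.mem_Ico]
      constructor <;> linarith [this.1, this.2]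
    · rintro x ⟨_, T, hTa, hT'⟩
      exact ⟨T, hTa, fun j hj => ⟨(hT' j hj).1, (hT' j hj).2.mono (fun y hy => hy.1)⟩⟩
  have hv1 : volume S1 ≤ ENNReal.ofReal (8 * lam ^ a0) := by
    refine vol_unit ?_ c (by omega) lam h0 h1 h2 a0 (r + J) ?_
    · rintro x ⟨⟨z, hz, rfl⟩, _⟩
      have := hS hz
      rw [Set.mem_Icc] at this
      rw [Set.mem_Ico]
      constructor <;> linarith [this.1, this.2]
    · rintro x ⟨_, T, hTa, hT'⟩
      exact ⟨T, hTa, fun j hj => ⟨(hT' j hj).1, (hT' j hj).2.mono (fun y hy => hy.1)⟩⟩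
  have hv1' : volume ((fun x => x + 1 / 3) ⁻¹' S1) = volume S1 := by
    exact measure_preimage_add_right volume (1 / 3 : ℝ) S1
  calc volume S ≤ volume (S0 ∪ (fun x => x + 1 / 3) ⁻¹' S1) := measure_mono hcov
    _ ≤ volume S0 + volume ((fun x => x + 1 / 3) ⁻¹' S1) := measure_union_le _ _
    _ ≤ ENNReal.ofReal (8 * lam ^ a0) + ENNReal.ofReal (8 * lam ^ a0) := by
        rw [hv1']; exact add_le_add hv0 hv1
    _ = ENNReal.ofReal (8 * lam ^ a0 + 8 * lam ^ a0) := by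
        rw [ENNReal.ofReal_add (by positivity) (by positivity)]
    _ ≤ _ := by
        apply ENNReal.ofReal_le_ofReal
        have h3 : lam ^ a0 ≤ Real.exp (-((a : ℝ) / (((b : ℝ) + 8) * 2 ^ (b + 8)))) := by
          rw [hlam, ← Real.exp_nat_mul, Real.exp_le_exp]
          have h4 : (a : ℝ) / 2 ≤ a0 := by
            have : a ≤ 2 * a0 := by omega
            have : (a : ℝ) ≤ 2 * a0 := by exact_mod_cast this
            linarith
          have h5 : (2 : ℝ) * (c * 2 ^ c) ≤ ((b : ℝ) + 8) * 2 ^ (b + 8) := by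
            rw [hc]
            push_cast
            have h6 : (2 : ℝ) ^ (b + 8) = 16 * 2 ^ (b + 4) := by
              rw [show b + 8 = (b + 4) + 4 by ring, pow_add]; ring
            rw [h6]
            have h7 : (0 : ℝ) < 2 ^ (b + 4) := by positivity
            have h8 : (0 : ℝ) ≤ b := Nat.cast_nonneg _
            nlinarith [mul_nonneg h8 h7.le]
          have h9 : (0 : ℝ) < c * 2 ^ c := by positivity
          have h10 : (a : ℝ) / (((b : ℝ) + 8) * 2 ^ (b + 8)) ≤ (a : ℝ) / (2 * (c * 2 ^ c)) :=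
            div_le_div_of_nonneg_left (Nat.cast_nonneg _) (by positivity) h5
          have h11 : (a : ℝ) / (2 * (c * 2 ^ c)) ≤ a0 * (1 / (c * 2 ^ c)) := by
            rw [div_mul_eq_div_div, mul_one_div]
            exact div_le_div_of_nonneg_right h4 h9.le
          rw [mul_neg, neg_le_neg_iff]
          exact h10.trans h11
        have h4 := Real.exp_pos (-((a : ℝ) / (((b : ℝ) + 8) * 2 ^ (b + 8))))
        nlinarith

end Pool.Agent.Work.MP_4c4335_nt_helper79
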